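import Pool.Agent.N321.KT.Defs

set_option autoImplicit false

open Filter Topology

namespace Pool.Agent.N321.KT

variable {ι : Type} [Fintype ι] [DecidableEq ι]

theorem pd_analytic {f : (ι → ℝ) → ℝ} {U : Set (ι → ℝ)} (hf : AnalyticOnNhd ℝ f U) (i : ι) :
    AnalyticOnNhd ℝ (pd i f) U := by
  have h := hf.fderiv
  exact fun x hx => (ContinuousLinearMap.apply ℝ ℝ (Pi.single i (1 : ℝ) : ι → ℝ)).analyticAt _
    |>.comp (h x hx)

theorem pd_congr {f g : (ι → ℝ) → ℝ} {U : Set (ι → ℝ)} (hU : IsOpen U) (h : ∀ x ∈ U, f x = g x)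
    (i : ι) : ∀ x ∈ U, pd i f x = pd i g x := by
  intro x hx
  have : f =ᶠ[𝓝 x] g := by
    filter_upwards [hU.mem_nhds hx] with y hy using h y hy
  unfold pd
  rw [this.fderiv_eq]

theorem jet_congr {U : Set (ι → ℝ)} (hU : IsOpen U) (w : List ι) :
    ∀ {f g : (ι → ℝ) → ℝ}, (∀ x ∈ U, f x = g x) → ∀ x ∈ U, jet f x w = jet g x w := by
  induction w with
  | nil => intro f g h x hx; exact h x hx
  | cons i w ih => intro f g h x hx; exact ih (pd_congr hU h i) x hx

theorem jet_add {U : Set (ι → ℝ)} (hU : IsOpen U) (w : List ι) :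
    ∀ {f g : (ι → ℝ) → ℝ}, AnalyticOnNhd ℝ f U → AnalyticOnNhd ℝ g U → ∀ x ∈ U,
      jet (fun y => f y + g y) x w = jet f x w + jet g x w := by
  induction w with
  | nil => intro f g _ _ x _; rfl
  | cons i w ih =>
    intro f g hf hg x hx
    have h1 : ∀ y ∈ U, pd i (fun y => f y + g y) y = pd i f y + pd i g y := by
      intro y hy
      unfold pd
      rw [fderiv_fun_add (hf y hy).differentiableAt (hg y hy).differentiableAt]
      rfl
    change jet (pd i fun y => f y + g y) x w = jet (pd i f) x w + jet (pd i g) x w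
    rw [jet_congr hU w h1 x hx, ih (pd_analytic hf i) (pd_analytic hg i) x hx]

theorem jet_smul {U : Set (ι → ℝ)} (hU : IsOpen U) (c : ℝ) (w : List ι) :
    ∀ {f : (ι → ℝ) → ℝ}, AnalyticOnNhd ℝ f U → ∀ x ∈ U,
      jet (fun y => c * f y) x w = c * jet f x w := by
  induction w with
  | nil => intro f _ x _; rfl
  | cons i w ih =>
    intro f hf x hx
    have h1 : ∀ y ∈ U, pd i (fun y => c * f y) y = c * pd i f y := by
      intro y hy
      unfold pd
      rw [fderiv_const_mul (hf y hy).differentiableAt]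
      rfl
    change jet (pd i fun y => c * f y) x w = c * jet (pd i f) x w
    rw [jet_congr hU w h1 x hx, ih (pd_analytic hf i) x hx]

theorem rho_zero (c : ℝ) (e : ι → ℝ) : rho c e 0 = 1 := by simp [rho]

theorem isOpen_dom (c : ℝ) (e : ι → ℝ) : IsOpen {x : ι → ℝ | 0 < rho c e x} := by
  have : Continuous (rho c e) := by unfold rho; fun_prop
  exact isOpen_lt continuous_const this

theorem starConvex_dom (c : ℝ) (e : ι → ℝ) : StarConvex ℝ 0 {x : ι → ℝ | 0 < rho c e x} := by
  rw [starConvex_zero_iff]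
  intro x hx a ha0 ha1
  simp only [Set.mem_setOf_eq] at hx ⊢
  have h : rho c e (a • x) = (1 - a ^ 2) + a ^ 2 * rho c e x := by
    simp only [rho, Pi.smul_apply, smul_eq_mul]
    have : ∑ i, e i * (a * x i) ^ 2 = a ^ 2 * ∑ i, e i * x i ^ 2 := by
      rw [Finset.mul_sum]; exact Finset.sum_congr rfl fun i _ => by ring
    rw [this]; ring
  rw [h]
  have h1 : a ^ 2 ≤ 1 := by nlinarith
  rcases eq_or_lt_of_le h1 with h2 | h2
  · rw [h2]; linarith
  · have : 0 ≤ a ^ 2 * rho c e x := by positivity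
    linarith

theorem isPreconnected_dom (c : ℝ) (e : ι → ℝ) :
    IsPreconnected {x : ι → ℝ | 0 < rho c e x} :=
  ((starConvex_dom c e).isPathConnected (by simp [rho_zero])).isConnected.isPreconnected

end Pool.Agent.N321.KT
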