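import Pool.Agent.N321.KT.Asm

set_option autoImplicit false

open Filter Topology

namespace Pool.Agent.N321.KT

variable {ι : Type} [Fintype ι] [DecidableEq ι]

/-- the contravariant tensor -/
def up (G K : (ι → ℝ) → ι → ι → ℝ) (s t : ι) (y : ι → ℝ) : ℝ := ∑ j, K y s j * G y j t

theorem up_add (G K K' : (ι → ℝ) → ι → ι → ℝ) (s t : ι) (y : ι → ℝ) :
    up G (K + K') s t y = up G K s t y + up G K' s t y := by
  unfold up
  rw [← Finset.sum_add_distrib]
  exact Finset.sum_congr rfl fun j _ => by rw [Pi.add_apply, Pi.add_apply, Pi.add_apply, add_mul]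

theorem up_smul (c : ℝ) (G K : (ι → ℝ) → ι → ι → ℝ) (s t : ι) (y : ι → ℝ) :
    up G (c • K) s t y = c * up G K s t y := by
  unfold up
  rw [Finset.mul_sum]
  exact Finset.sum_congr rfl fun j _ => by
    rw [Pi.smul_apply, Pi.smul_apply, Pi.smul_apply, smul_eq_mul, mul_assoc]

theorem up_diff {G K : (ι → ℝ) → ι → ι → ℝ} {U : Set (ι → ℝ)}
    (hG : ∀ s t, AnalyticOnNhd ℝ (fun x => G x s t) U)
    (hK : ∀ s t, AnalyticOnNhd ℝ (fun x => K x s t) U) (s t : ι) (x : ι → ℝ) (hx : x ∈ U) :
    DifferentiableAt ℝ (up G K s t) x :=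
  DifferentiableAt.fun_sum fun j _ =>
    (hK s j x hx).differentiableAt.mul (hG j t x hx).differentiableAt

/-- the bracket -/
noncomputable def brk (G : (ι → ℝ) → ι → ι → ℝ) (F : ι → ι → (ι → ℝ) → ℝ) (x p : ι → ℝ) : ℝ :=
  ∑ l, ((∑ j, G x l j * p j) * (∑ s, ∑ t, pd l (F s t) x * p s * p t) -
      (∑ t, (F l t x) * p t) * (∑ s, ∑ t, pd l (fun y => G y s t) x * p s * p t))

theorem brk_add (G : (ι → ℝ) → ι → ι → ℝ) (F F' : ι → ι → (ι → ℝ) → ℝ) (x p : ι → ℝ)
    (hF : ∀ s t, DifferentiableAt ℝ (F s t) x) (hF' : ∀ s t, DifferentiableAt ℝ (F' s t) x) :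
    brk G (fun s t y => F s t y + F' s t y) x p = brk G F x p + brk G F' x p := by
  have e1 : ∀ l s t, pd l (fun y => F s t y + F' s t y) x = pd l (F s t) x + pd l (F' s t) x := by
    intro l s t
    unfold pd
    rw [fderiv_fun_add (hF s t) (hF' s t)]
    rfl
  unfold brk
  simp only [e1, add_mul, Finset.sum_add_distrib, mul_add, Finset.sum_sub_distrib]
  ring

theorem brk_smul (c : ℝ) (G : (ι → ℝ) → ι → ι → ℝ) (F : ι → ι → (ι → ℝ) → ℝ) (x p : ι → ℝ)
    (hF : ∀ s t, DifferentiableAt ℝ (F s t) x) :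
    brk G (fun s t y => c * F s t y) x p = c * brk G F x p := by
  have e1 : ∀ l s t, pd l (fun y => c * F s t y) x = c * pd l (F s t) x := by
    intro l s t
    unfold pd
    rw [fderiv_const_mul (hF s t)]
    rfl
  unfold brk
  simp only [e1, mul_assoc, ← Finset.mul_sum]
  rw [Finset.mul_sum]
  refine Finset.sum_congr rfl fun l _ => ?_
  ring

theorem IsKilling.brk {G K : (ι → ℝ) → ι → ι → ℝ} {U : Set (ι → ℝ)} (h : IsKilling G U K)
    (x : ι → ℝ) (hx : x ∈ U) (p : ι → ℝ) : KT.brk G (up G K) x p = 0 := h.bracket x hx p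

theorem isKilling_mk {G K : (ι → ℝ) → ι → ι → ℝ} {U : Set (ι → ℝ)}
    (h1 : ∀ s j, AnalyticOnNhd ℝ (fun x => K x s j) U)
    (h2 : ∀ x ∈ U, ∀ s t, up G K s t x = up G K t s x)
    (h3 : ∀ x ∈ U, ∀ p, KT.brk G (up G K) x p = 0) : IsKilling G U K := ⟨h1, h2, h3⟩

theorem IsKilling.add {G K K' : (ι → ℝ) → ι → ι → ℝ} {U : Set (ι → ℝ)}
    (hG : ∀ s t, AnalyticOnNhd ℝ (fun x => G x s t) U) (h : IsKilling G U K)
    (h' : IsKilling G U K') : IsKilling G U (K + K') := by
  refine isKilling_mk (fun s j => (h.analytic s j).add (h'.analytic s j))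
    (fun x hx s t => ?_) (fun x hx p => ?_)
  · rw [up_add, up_add]
    have e1 : up G K s t x = up G K t s x := h.symm x hx s t
    have e2 : up G K' s t x = up G K' t s x := h'.symm x hx s t
    rw [e1, e2]
  · have e : up G (K + K') = fun s t y => up G K s t y + up G K' s t y := by
      funext s t y; exact up_add G K K' s t y
    rw [e, brk_add G _ _ x p (fun s t => up_diff hG h.analytic s t x hx)
      (fun s t => up_diff hG h'.analytic s t x hx)]
    rw [show KT.brk G (fun s t y => up G K s t y) x p = 0 from h.brk x hx p,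
      show KT.brk G (fun s t y => up G K' s t y) x p = 0 from h'.brk x hx p, add_zero]

theorem IsKilling.smul {G K : (ι → ℝ) → ι → ι → ℝ} {U : Set (ι → ℝ)} (c : ℝ)
    (hG : ∀ s t, AnalyticOnNhd ℝ (fun x => G x s t) U) (h : IsKilling G U K) :
    IsKilling G U (c • K) := by
  refine isKilling_mk (fun s j => analyticOnNhd_const.mul (h.analytic s j))
    (fun x hx s t => ?_) (fun x hx p => ?_)
  · rw [up_smul, up_smul]
    have e1 : up G K s t x = up G K t s x := h.symm x hx s t
    rw [e1]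
  · have e : up G (c • K) = fun s t y => c * up G K s t y := by
      funext s t y; exact up_smul c G K s t y
    rw [e, brk_smul c G _ x p (fun s t => up_diff hG h.analytic s t x hx)]
    rw [show KT.brk G (fun s t y => up G K s t y) x p = 0 from h.brk x hx p, mul_zero]

theorem IsKilling.zero (G : (ι → ℝ) → ι → ι → ℝ) (U : Set (ι → ℝ)) :
    IsKilling G U (0 : (ι → ℝ) → ι → ι → ℝ) := by
  have e : up G (0 : (ι → ℝ) → ι → ι → ℝ) = fun s t y => 0 := by
    funext s t y; simp [up]
  refine isKilling_mk (fun s j => analyticOnNhd_const) (fun x hx s t => by rw [e])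
    (fun x hx p => ?_)
  rw [e]
  have : ∀ l : ι, pd l (fun _ : ι → ℝ => (0 : ℝ)) x = 0 := by
    intro l; unfold pd; simp
  simp [KT.brk, this]

/-- Killing tensors on `U`, extended by zero. -/
def killing (G : (ι → ℝ) → ι → ι → ℝ) (U : Set (ι → ℝ))
    (hG : ∀ s t, AnalyticOnNhd ℝ (fun x => G x s t) U) :
    Submodule ℝ ((ι → ℝ) → ι → ι → ℝ) where
  carrier := {K | IsKilling G U K ∧ ∀ x ∉ U, K x = 0}
  add_mem' := by
    rintro K K' ⟨h1, h2⟩ ⟨h1', h2'⟩
    exact ⟨h1.add hG h1', fun x hx => by simp [h2 x hx, h2' x hx]⟩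
  zero_mem' := ⟨IsKilling.zero G U, fun x _ => rfl⟩
  smul_mem' := by
    rintro c K ⟨h1, h2⟩
    exact ⟨h1.smul c hG, fun x hx => by simp [h2 x hx]⟩

theorem gInv_analytic (c : ℝ) (e : ι → ℝ) (U : Set (ι → ℝ)) (s t : ι) :
    AnalyticOnNhd ℝ (fun x => gInv c e x s t) U := by
  have : ContDiff ℝ ⊤ (fun x : ι → ℝ => gInv c e x s t) := by
    unfold gInv rho
    fun_prop
  exact (contDiff_omega_iff_analyticOnNhd.1 this).mono (Set.subset_univ _)

open Classical in
/-- The restriction. -/
theorem restrict_mem {G K : (ι → ℝ) → ι → ι → ℝ} {U Ω : Set (ι → ℝ)} (hU : IsOpen U)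
    (hUΩ : U ⊆ Ω) (hG : ∀ s t, AnalyticOnNhd ℝ (fun x => G x s t) U) (h : IsKilling G Ω K) :
    (fun x => if x ∈ U then K x else 0) ∈ killing G U hG := by
  have hc : ∀ s t, ∀ x ∈ U, (if x ∈ U then K x else 0) s t = K x s t := by
    intro s t x hx; rw [if_pos hx]
  have hup : ∀ s t, ∀ x ∈ U, up G (fun x => if x ∈ U then K x else 0) s t x = up G K s t x := by
    intro s t x hx
    refine Finset.sum_congr rfl fun j _ => ?_
    change (if x ∈ U then K x else 0) s j * _ = _
    rw [hc s j x hx]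
  refine ⟨isKilling_mk (fun s j => ?_) (fun x hx s t => ?_) (fun x hx p => ?_),
    fun x hx => if_neg hx⟩
  · exact ((h.analytic s j).mono hUΩ).congr hU fun x hx => (hc s j x hx).symm
  · rw [hup s t x hx, hup t s x hx]
    exact h.symm x (hUΩ hx) s t
  · have h0 := h.brk x (hUΩ hx) p
    have e1 : ∀ l s t, pd l (up G (fun x => if x ∈ U then K x else 0) s t) x =
        pd l (up G K s t) x := fun l s t => pd_congr hU (hup s t) l x hx
    unfold KT.brk at h0 ⊢
    simp only [e1, hup _ _ x hx]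
    exact h0

/-- `F` is a polynomial function on the real vector space `V`: a polynomial in finitely many
linear functions. -/
def IsPoly {V : Type} [AddCommGroup V] [Module ℝ V] (F : V → ℝ) : Prop :=
  F ∈ Algebra.adjoin ℝ {φ : V → ℝ | ∃ l : V →ₗ[ℝ] ℝ, ∀ v, φ v = l v}

/-- The jets as linear functions. -/
theorem isPoly_eval (G : (ι → ℝ) → ι → ι → ℝ) (U : Set (ι → ℝ)) (hU : IsOpen U)
    (hG : ∀ s t, AnalyticOnNhd ℝ (fun x => G x s t) U) (x : ι → ℝ) (hx : x ∈ U) (r : ℝ)
    (P : MvPolynomial (ι × ι × List ι) ℝ) :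
    IsPoly (fun K : killing G U hG => MvPolynomial.eval
      (fun q : ι × ι × List ι => r ^ q.2.2.length * jet (fun y => K.1 y q.1 q.2.1) x q.2.2) P) := by
  unfold IsPoly
  induction P using MvPolynomial.induction_on with
  | C a =>
    have : (fun K : killing G U hG => MvPolynomial.eval
      (fun q : ι × ι × List ι => r ^ q.2.2.length * jet (fun y => K.1 y q.1 q.2.1) x q.2.2)
        (MvPolynomial.C a)) = algebraMap ℝ (killing G U hG → ℝ) a := by
      funext K; simp
    rw [this]
    exact Subalgebra.algebraMap_mem _ a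
  | add p q hp hq =>
    have := Subalgebra.add_mem _ hp hq
    convert this using 1
    funext K
    rw [map_add]; rfl
  | mul_X p q hp =>
    obtain ⟨s, t, w⟩ := q
    have h : (fun K : killing G U hG => r ^ w.length * jet (fun y => K.1 y s t) x w) ∈
        Algebra.adjoin ℝ {φ : killing G U hG → ℝ |
          ∃ l : killing G U hG →ₗ[ℝ] ℝ, ∀ v, φ v = l v} := by
      apply Algebra.subset_adjoin
      refine ⟨{ toFun := fun K => r ^ w.length * jet (fun y => K.1 y s t) x w
                map_add' := ?_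
                map_smul' := ?_ }, fun v => rfl⟩
      · intro K K'
        have := jet_add hU w (K.2.1.analytic s t) (K'.2.1.analytic s t) x hx
        change r ^ w.length * jet (fun y => K.1 y s t + K'.1 y s t) x w = _
        rw [this]; ring
      · intro c K
        have := jet_smul hU c w (K.2.1.analytic s t) x hx
        change r ^ w.length * jet (fun y => c * K.1 y s t) x w = _
        rw [this]; simp only [RingHom.id_apply, smul_eq_mul]; ring
    have := Subalgebra.mul_mem _ hp h
    convert this using 1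
    funext K
    rw [map_mul, MvPolynomial.eval_X]; rfl

end Pool.Agent.N321.KT
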