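import Mathlib

/-!
Project KT (helper321), page MP_e1e8f4_mp: conservation laws of a generic Killing tensor of a metric
of constant curvature. Definitions and the statements of the leaves.
-/

set_option autoImplicit false

open Filter Topology

namespace Pool.Agent.N321.KT

/-! ### Jets: the value at the word `w` is the iterated derivative along the letters of `w` -/

abbrev Jet (ι R : Type) := List ι → R

variable {ι : Type}

/-- The jet of the derivative. -/
def D {R : Type} (i : ι) (u : Jet ι R) : Jet ι R := fun w => u (i :: w)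

/-- The jet of a product (Leibniz rule). -/
def mul {R : Type} [CommRing R] : Jet ι R → Jet ι R → List ι → R
  | u, v, [] => u [] * v []
  | u, v, i :: w => mul (D i u) v w + mul u (D i v) w

/-- The jet of the form `K^* df`. -/
def th {R : Type} [CommRing R] [Fintype ι] (K : ι → ι → Jet ι R) (v : Jet ι R) (j : ι) : Jet ι R :=
  fun w => ∑ s, mul (K s j) (D s v) w

/-- The jet of `d (K^* df)`. -/
def om {R : Type} [CommRing R] [Fintype ι] (K : ι → ι → Jet ι R) (v : Jet ι R) (i j : ι) :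
    Jet ι R :=
  fun w => th K v j (i :: w) - th K v i (j :: w)

/-- symmetric jets -/
def Sym {R : Type} (v : Jet ι R) : Prop := ∀ w w' : List ι, w.Perm w' → v w = v w'

/-- jets of orders `1, ..., m` -/
def Tr {R : Type} [Zero R] (m : ℕ) (v : Jet ι R) : Prop :=
  ∀ w, v w ≠ 0 → 1 ≤ w.length ∧ w.length ≤ m

/-- the equations of orders `≤ m - 2` -/
def Rows {R : Type} [CommRing R] [Fintype ι] (m : ℕ) (K : ι → ι → Jet ι R) (v : Jet ι R) : Prop :=
  ∀ w : List ι, w.length + 2 ≤ m → ∀ i j, om K v i j w = 0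

theorem mul_add' {R : Type} [CommRing R] (u v v' : Jet ι R) (w : List ι) :
    mul u (v + v') w = mul u v w + mul u v' w := by
  induction w generalizing u v v' with
  | nil => simp [mul, mul_add]
  | cons i w ih =>
    have : D i (v + v') = D i v + D i v' := rfl
    simp only [mul, this, ih]; ring

theorem mul_smul' {R : Type} [CommRing R] (c : R) (u v : Jet ι R) (w : List ι) :
    mul u (c • v) w = c * mul u v w := by
  induction w generalizing u v with
  | nil => simp [mul]; ring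
  | cons i w ih =>
    have : D i (c • v) = c • D i v := rfl
    simp only [mul, this, ih]; ring

theorem mul_zero' {R : Type} [CommRing R] (u : Jet ι R) (w : List ι) :
    mul u 0 w = 0 := by
  have := mul_smul' (0 : R) u 0 w
  simpa using this

theorem om_add [Fintype ι] (K : ι → ι → Jet ι ℝ) (v v' : Jet ι ℝ) (i j : ι) (w : List ι) :
    om K (v + v') i j w = om K v i j w + om K v' i j w := by
  have h : ∀ s, D s (v + v') = D s v + D s v' := fun s => rfl
  simp only [om, th, h, mul_add', Finset.sum_add_distrib]; ring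

theorem om_smul [Fintype ι] (K : ι → ι → Jet ι ℝ) (c : ℝ) (v : Jet ι ℝ) (i j : ι) (w : List ι) :
    om K (c • v) i j w = c * om K v i j w := by
  have h : ∀ s, D s (c • v) = c • D s v := fun s => rfl
  simp only [om, th, h, mul_smul', ← Finset.mul_sum]; ring

/-- The solutions of the equations of order `≤ m - 2` in the space of the `m`-jets. -/
def Ker [Fintype ι] (m : ℕ) (K : ι → ι → Jet ι ℝ) : Submodule ℝ (Jet ι ℝ) where
  carrier := {v | Sym v ∧ Tr m v ∧ Rows m K v}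
  add_mem' := by
    rintro v v' ⟨h1, h2, h3⟩ ⟨h1', h2', h3'⟩
    refine ⟨fun w w' h => ?_, fun w hw => ?_, fun w hw i j => ?_⟩
    · change v w + v' w = v w' + v' w'
      rw [h1 w w' h, h1' w w' h]
    · by_cases h : v w = 0
      · by_cases h' : v' w = 0
        · exact absurd (show v w + v' w = 0 by rw [h, h', add_zero]) hw
        · exact h2' w h'
      · exact h2 w h
    · rw [om_add, h3 w hw i j, h3' w hw i j, add_zero]
  zero_mem' := by
    refine ⟨fun w w' _ => rfl, fun w hw => absurd rfl hw, fun w _ i j => ?_⟩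
    have := om_smul K 0 0 i j w
    simpa using this
  smul_mem' := by
    rintro c v ⟨h1, h2, h3⟩
    refine ⟨fun w w' h => ?_, fun w hw => ?_, fun w hw i j => ?_⟩
    · change c * v w = c * v w'
      rw [h1 w w' h]
    · exact h2 w (fun h => hw (show c * v w = 0 by rw [h, mul_zero]))
    · rw [om_smul, h3 w hw i j, mul_zero]

/-- Only the pure derivatives of order `m` can be different from zero. -/
def Pure [Fintype ι] (m : ℕ) (K : ι → ι → Jet ι ℝ) : Prop :=
  ∀ v ∈ Ker m K, ∀ w, v w ≠ 0 → w.length = m ∧ ∀ i ∈ w, ∀ j ∈ w, i = j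

/-- The jets of order `< m` vanish. -/
def Nice [Fintype ι] (m : ℕ) (K : ι → ι → Jet ι ℝ) : Prop :=
  ∀ v ∈ Ker m K, ∀ w, v w ≠ 0 → w.length = m

/-- jets of `d + lin`, a diagonal constant matrix plus a linear one -/
def Kjet [DecidableEq ι] (d : ι → ℝ) (lin : ι → ι → ι → ℝ) (s j : ι) : Jet ι ℝ
  | [] => if s = j then d s else 0
  | [l] => lin s j l
  | _ :: _ :: _ => 0

/-- the linear part which is given by the coefficients `b` of the products `P i * L j k` -/
def lin (e : ι → ℝ) (b : ι → ι → ι → ℝ) (s t l : ι) : ℝ :=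
  e t * e l * ((b s l t - b s t l) + (b t l s - b t s l))

/-! ### Functions -/

/-- partial derivative -/
noncomputable def pd [Fintype ι] [DecidableEq ι] (i : ι) (f : (ι → ℝ) → ℝ) : (ι → ℝ) → ℝ :=
  fun x => fderiv ℝ f x (Pi.single i 1)

/-- the jet of a function at a point -/
noncomputable def jet [Fintype ι] [DecidableEq ι] : ((ι → ℝ) → ℝ) → (ι → ℝ) → List ι → ℝ
  | f, x, [] => f x
  | f, x, i :: w => jet (pd i f) x w

/-- `f` is a conservation law of the operator field `K` on `W`. -/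
def IsLaw [Fintype ι] [DecidableEq ι] (K : (ι → ℝ) → ι → ι → ℝ) (f : (ι → ℝ) → ℝ)
    (W : Set (ι → ℝ)) : Prop :=
  ∀ x ∈ W, ∀ i j, pd i (fun y => ∑ s, K y s j * pd s f y) x =
    pd j (fun y => ∑ s, K y s i * pd s f y) x

/-! ### The metric of constant curvature `c` in the projective (Beltrami) coordinates -/

/-- `1 + c * ∑ e i * x i ^ 2` -/
def rho [Fintype ι] (c : ℝ) (e : ι → ℝ) (x : ι → ℝ) : ℝ := 1 + c * ∑ i, e i * x i ^ 2

/-- the inverse metric -/
def gInv [Fintype ι] [DecidableEq ι] (c : ℝ) (e : ι → ℝ) (x : ι → ℝ) (i j : ι) : ℝ :=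
  rho c e x * ((if i = j then e i else 0) + c * x i * x j)

/-- the metric -/
noncomputable def gMet [Fintype ι] [DecidableEq ι] (c : ℝ) (e : ι → ℝ) (x : ι → ℝ) (i j : ι) : ℝ :=
  ((if i = j then rho c e x * e i else 0) - c * e i * e j * x i * x j) / rho c e x ^ 2

/-- `K` is a `(1,1)`-Killing tensor on `U` of the metric with the inverse `G`: it is analytic,
self-adjoint, and the quadratic forms `G p p` and `G (K p) p` commute. -/
structure IsKilling [Fintype ι] [DecidableEq ι] (G : (ι → ℝ) → ι → ι → ℝ) (U : Set (ι → ℝ))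
    (K : (ι → ℝ) → ι → ι → ℝ) : Prop where
  analytic : ∀ s j, AnalyticOnNhd ℝ (fun x => K x s j) U
  symm : ∀ x ∈ U, ∀ s t, ∑ j, K x s j * G x j t = ∑ j, K x t j * G x j s
  bracket : ∀ x ∈ U, ∀ p : ι → ℝ,
    ∑ l, ((∑ j, G x l j * p j) * (∑ s, ∑ t, pd l (fun y => ∑ j, K y s j * G y j t) x * p s * p t) -
      (∑ t, (∑ j, K x l j * G x j t) * p t) * (∑ s, ∑ t, pd l (fun y => G y s t) x * p s * p t)) = 0

/-- the translations `P j` -/
def kP [DecidableEq ι] (c : ℝ) (e : ι → ℝ) (x : ι → ℝ) (j s : ι) : ℝ :=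
  (if j = s then 1 else 0) + c * e j * x j * x s

/-- the rotations `L k l` -/
def kL [DecidableEq ι] (e : ι → ℝ) (x : ι → ℝ) (k l s : ι) : ℝ :=
  (if l = s then e k * x k else 0) - (if k = s then e l * x l else 0)

/-- contravariant Killing tensor `∑ d j * P j * P j + ∑ b j k l * (P j * L k l + L k l * P j)` -/
def kQ [Fintype ι] [DecidableEq ι] (c : ℝ) (e d : ι → ℝ) (b : ι → ι → ι → ℝ) (x : ι → ℝ)
    (s t : ι) : ℝ :=
  (∑ j, d j * kP c e x j s * kP c e x j t) +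
    ∑ j, ∑ k, ∑ l, b j k l * (kP c e x j s * kL e x k l t + kP c e x j t * kL e x k l s)

/-- the `(1,1)`-Killing tensor -/
noncomputable def kK [Fintype ι] [DecidableEq ι] (c : ℝ) (e d : ι → ℝ) (b : ι → ι → ι → ℝ)
    (x : ι → ℝ) (s t : ι) : ℝ :=
  ∑ i, kQ c e (fun j => d j * e j) b x s i * gMet c e x i t

/-! ### The leaves -/

/-- MIN: the dimension of the solution space is at most `n` if some polynomial is not zero. -/
def S_MIN : Prop := ∀ (ι : Type) [Fintype ι] [DecidableEq ι] (m : ℕ) (K0 : ι → ι → Jet ι ℝ),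
  Pure m K0 → ∃ P : MvPolynomial (ι × ι × List ι) ℝ,
    MvPolynomial.eval (fun q => K0 q.1 q.2.1 q.2.2) P ≠ 0 ∧
    ∀ K : ι → ι → Jet ι ℝ, MvPolynomial.eval (fun q => K q.1 q.2.1 q.2.2) P ≠ 0 →
      FiniteDimensional ℝ (Ker m K) ∧ Module.finrank ℝ (Ker m K) ≤ Fintype.card ι

/-- CYC: if the matrix `A` has a cyclic vector, there are at least `n` homogeneous solutions of
degree `m` for the constant operator `A`. -/
def S_CYC : Prop := ∀ (ι : Type) [Fintype ι] [DecidableEq ι] (m : ℕ) (A : Matrix ι ι ℝ)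
  (u : ι → ℝ), 2 ≤ m →
  LinearIndependent ℝ (fun k : Fin (Fintype.card ι) => (A ^ (k : ℕ)).mulVec u) →
  ∃ L : (ι → ℝ) →ₗ[ℝ] Jet ι ℝ, Function.Injective L ∧ ∀ a, Sym (L a) ∧
    (∀ w, L a w ≠ 0 → w.length = m) ∧
    ∀ (w : List ι) (i j : ι), w.length + 2 = m →
      ∑ s, A s j * L a (s :: i :: w) = ∑ s, A s i * L a (s :: j :: w)

/-- GEN: the generic operator field. -/
def S_GEN : Prop := ∀ (ι : Type) [Fintype ι] [DecidableEq ι] (m : ℕ) (K0 : ι → ι → Jet ι ℝ)
  (d : ι → ℝ), 2 ≤ m → Function.Injective d → (∀ s j, K0 s j [] = if s = j then d s else 0) →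
  Pure m K0 → ∃ P : MvPolynomial (ι × ι × List ι) ℝ,
    MvPolynomial.eval (fun q => K0 q.1 q.2.1 q.2.2) P ≠ 0 ∧
    ∀ K : ι → ι → Jet ι ℝ, MvPolynomial.eval (fun q => K q.1 q.2.1 q.2.2) P ≠ 0 → Nice m K

/-- JET: the jets of a conservation law satisfy the equations. -/
def S_JET : Prop := ∀ (ι : Type) [Fintype ι] [DecidableEq ι] (W : Set (ι → ℝ))
  (K : (ι → ℝ) → ι → ι → ℝ) (f : (ι → ℝ) → ℝ), IsOpen W →
  (∀ s j, ContDiffOn ℝ (⊤ : ℕ∞) (fun x => K x s j) W) → ContDiffOn ℝ (⊤ : ℕ∞) f W →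
  IsLaw K f W → ∀ x ∈ W, Sym (jet f x) ∧
    ∀ (w : List ι) (i j : ι), om (fun s j => jet (fun y => K y s j) x) (jet f x) i j w = 0

/-- LOC: truncation and scaling of jets. -/
def S_LOC : Prop := ∀ (ι : Type) [Fintype ι] [DecidableEq ι] (m : ℕ) (K : ι → ι → Jet ι ℝ)
  (v : Jet ι ℝ) (r : ℝ), Sym v → (∀ w i j, om K v i j w = 0) →
  (fun w : List ι => if 1 ≤ w.length ∧ w.length ≤ m then r ^ w.length * v w else 0) ∈
    Ker m (fun s j w => r ^ w.length * K s j w)

/-- END: the conservation laws are constant. -/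
def S_END : Prop := ∀ (ι : Type) [Fintype ι] [DecidableEq ι] (m : ℕ) (r : ℝ)
  (P : MvPolynomial (ι × ι × List ι) ℝ) (U : Set (ι → ℝ)) (K : (ι → ℝ) → ι → ι → ℝ)
  (x₀ : ι → ℝ), 2 ≤ m → 0 < r →
  (∀ K : ι → ι → Jet ι ℝ, MvPolynomial.eval (fun q => K q.1 q.2.1 q.2.2) P ≠ 0 → Nice m K) →
  IsOpen U → IsPreconnected U → (∀ s j, AnalyticOnNhd ℝ (fun x => K x s j) U) → x₀ ∈ U →
  MvPolynomial.eval (fun q => r ^ q.2.2.length * jet (fun y => K y q.1 q.2.1) x₀ q.2.2) P ≠ 0 →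
  ∀ (W : Set (ι → ℝ)) (f : (ι → ℝ) → ℝ), IsOpen W → IsPreconnected W → W ⊆ U →
    ContDiffOn ℝ (⊤ : ℕ∞) f W → IsLaw K f W → ∀ x ∈ W, ∀ y ∈ W, f x = f y

/-- DENSE: a nonzero polynomial in the jets of an analytic field is not zero at some point of any
nonempty open subset of a connected open set. -/
def S_DEN : Prop := ∀ (ι : Type) [Fintype ι] [DecidableEq ι] (r : ℝ)
  (P : MvPolynomial (ι × ι × List ι) ℝ) (U : Set (ι → ℝ)) (K : (ι → ℝ) → ι → ι → ℝ)
  (x₀ : ι → ℝ), IsOpen U → IsPreconnected U →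
  (∀ s j, AnalyticOnNhd ℝ (fun x => K x s j) U) → x₀ ∈ U →
  MvPolynomial.eval (fun q => r ^ q.2.2.length * jet (fun y => K y q.1 q.2.1) x₀ q.2.2) P ≠ 0 →
  ∀ V : Set (ι → ℝ), IsOpen V → V.Nonempty → V ⊆ U → ∃ x ∈ V,
    MvPolynomial.eval (fun q => r ^ q.2.2.length * jet (fun y => K y q.1 q.2.1) x q.2.2) P ≠ 0

/-- KIL: `kK` is a Killing tensor. -/
def S_KIL : Prop := ∀ (ι : Type) [Fintype ι] [DecidableEq ι] (c : ℝ) (e d : ι → ℝ)
  (b : ι → ι → ι → ℝ), (∀ i, e i ^ 2 = 1) →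
  IsKilling (gInv c e) {x | 0 < rho c e x} (kK c e d b)

/-- CON: the jets at `0` of the rescaled Killing tensors depend continuously on the curvature. -/
def S_CON : Prop := ∀ (ι : Type) [Fintype ι] [DecidableEq ι] (c : ℝ) (e d : ι → ℝ)
  (b : ι → ι → ι → ℝ), (∀ i, e i ^ 2 = 1) → ∀ (s t : ι) (w : List ι),
  Tendsto (fun r : ℝ => r ^ w.length *
      jet (fun y => kK c e d (fun i j k => r⁻¹ * b i j k) y s t) 0 w)
    (𝓝[>] 0) (𝓝 (Kjet d (lin e b) s t w))

/-- PUR: it is enough to consider the pure derivatives. -/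
def S_PUR : Prop := ∀ (ι : Type) [Fintype ι] [DecidableEq ι] (m : ℕ) (K : ι → ι → Jet ι ℝ)
  (d : ι → ℝ), Function.Injective d → (∀ s j, K s j [] = if s = j then d s else 0) →
  (∀ v ∈ Ker m K, ∀ (i : ι) (k : ℕ), 1 ≤ k → k < m → v (List.replicate k i) = 0) → Pure m K

/-- MONO: from order `m` to order `m + 1`. -/
def S_MONO : Prop := ∀ (ι : Type) [Fintype ι] [DecidableEq ι] (m : ℕ) (d : ι → ℝ)
  (l : ι → ι → ι → ℝ), 2 ≤ m → Function.Injective d →
  (∀ k, ∃ i j, i ≠ k ∧ j ≠ k ∧ i ≠ j ∧ (d k - d j) * l k i j ≠ (d k - d i) * l k j i) →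
  Pure m (Kjet d l) → Pure (m + 1) (Kjet d l)

/-- The coefficients for three coordinates. -/
def b3 (i j k : Fin 3) : ℝ := if (i, j, k) ∈ [(1, 0, 2), (1, 1, 2)] then 1 else 0

/-- The coefficients for four coordinates. -/
def b4 (i j k : Fin 4) : ℝ := if (i, j, k) ∈ [(2, 0, 1), (3, 1, 3), (3, 0, 1)] then 1 else 0

/-- The coefficients for five coordinates. -/
def b5 (i j k : Fin 5) : ℝ :=
  if (i, j, k) ∈ [(3, 0, 2), (1, 0, 4), (4, 0, 2), (3, 2, 4), (1, 0, 2)] then 1 else 0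

/-- N3: three coordinates, order 6 (true for all signs: rank computation). -/
def S_N3 : Prop := ∀ e : Fin 3 → ℝ, (∀ i, e i ^ 2 = 1) →
  Pure 6 (Kjet ![0, 1, 3] (lin e b3))

/-- N4: four coordinates, order 4 (true for all signs: rank computation). -/
def S_N4 : Prop := ∀ e : Fin 4 → ℝ, (∀ i, e i ^ 2 = 1) →
  Pure 4 (Kjet ![0, 1, 4, 9] (lin e b4))

/-- N5: five coordinates, order 3 (true for all signs: rank computation). -/
def S_N5 : Prop := ∀ e : Fin 5 → ℝ, (∀ i, e i ^ 2 = 1) →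
  Pure 3 (Kjet ![0, 1, 3, 7, 12] (lin e b5))

/-- SUM: direct sums. -/
def S_SUM : Prop := ∀ (ι₁ ι₂ : Type) [Fintype ι₁] [DecidableEq ι₁] [Fintype ι₂] [DecidableEq ι₂]
  (m : ℕ) (e₁ : ι₁ → ℝ) (e₂ : ι₂ → ℝ) (d₁ : ι₁ → ℝ) (d₂ : ι₂ → ℝ) (b₁ : ι₁ → ι₁ → ι₁ → ℝ)
  (b₂ : ι₂ → ι₂ → ι₂ → ℝ), 2 ≤ m → Function.Injective d₁ → Function.Injective d₂ →
  Pure m (Kjet d₁ (lin e₁ b₁)) → Pure m (Kjet d₂ (lin e₂ b₂)) →
  ∃ (d : ι₁ ⊕ ι₂ → ℝ) (b : ι₁ ⊕ ι₂ → ι₁ ⊕ ι₂ → ι₁ ⊕ ι₂ → ℝ), Function.Injective d ∧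
    Pure m (Kjet d (lin (Sum.elim e₁ e₂) b))

/-- EX: in dimension `n ≥ 3` there is a Killing tensor with `Pure`, for each signature. -/
def S_EX : Prop := ∀ (ι : Type) [Fintype ι] [DecidableEq ι] (e : ι → ℝ), 3 ≤ Fintype.card ι →
  (∀ i, e i ^ 2 = 1) → ∃ (d : ι → ℝ) (b : ι → ι → ι → ℝ),
    Function.Injective d ∧ Pure 6 (Kjet d (lin e b))

end Pool.Agent.N321.KT
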