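import Pool.Agent.N321.KT.Asm2

set_option autoImplicit false

open Filter Topology

namespace Pool.Agent.N321.KT

variable {ι : Type} [Fintype ι] [DecidableEq ι]

/-- the polynomial at the scaled jets -/
noncomputable def ev (P : MvPolynomial (ι × ι × List ι) ℝ) (r : ℝ) (K : (ι → ℝ) → ι → ι → ℝ)
    (x : ι → ℝ) : ℝ :=
  MvPolynomial.eval (fun q : ι × ι × List ι =>
    r ^ q.2.2.length * jet (fun y => K y q.1 q.2.1) x q.2.2) P

theorem ev_congr (P : MvPolynomial (ι × ι × List ι) ℝ) (r : ℝ) {K K' : (ι → ℝ) → ι → ι → ℝ}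
    {U : Set (ι → ℝ)} (hU : IsOpen U) (h : ∀ x ∈ U, K x = K' x) (x : ι → ℝ) (hx : x ∈ U) :
    ev P r K x = ev P r K' x := by
  unfold ev
  have : (fun q : ι × ι × List ι => r ^ q.2.2.length * jet (fun y => K y q.1 q.2.1) x q.2.2) =
      fun q => r ^ q.2.2.length * jet (fun y => K' y q.1 q.2.1) x q.2.2 := by
    funext q
    rw [jet_congr hU q.2.2 (f := fun y => K y q.1 q.2.1) (g := fun y => K' y q.1 q.2.1)
      (fun x hx => by rw [h x hx]) x hx]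
  rw [this]

/-- The scale. -/
theorem exists_scale (hCON : S_CON) (c : ℝ) (e d : ι → ℝ) (b : ι → ι → ι → ℝ)
    (he : ∀ i, e i ^ 2 = 1) (P : MvPolynomial (ι × ι × List ι) ℝ)
    (hP0 : MvPolynomial.eval (fun q : ι × ι × List ι => Kjet d (lin e b) q.1 q.2.1 q.2.2) P ≠ 0) :
    ∃ r : ℝ, 0 < r ∧ ev P r (kK c e d (fun i j k => r⁻¹ * b i j k)) 0 ≠ 0 := by
  have h1 : Tendsto (fun r : ℝ => fun q : ι × ι × List ι =>
      r ^ q.2.2.length * jet (fun y => kK c e d (fun i j k => r⁻¹ * b i j k) y q.1 q.2.1) 0 q.2.2)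
      (𝓝[>] 0) (𝓝 (fun q => Kjet d (lin e b) q.1 q.2.1 q.2.2)) :=
    tendsto_pi_nhds.2 fun q => hCON ι c e d b he q.1 q.2.1 q.2.2
  have h2 : Continuous (fun X : ι × ι × List ι → ℝ => MvPolynomial.eval X P) :=
    MvPolynomial.continuous_eval P
  have hlim := (h2.tendsto _).comp h1
  obtain ⟨r, hr1, hr0⟩ := ((hlim.eventually_ne hP0).and self_mem_nhdsWithin).exists
  exact ⟨r, hr0, hr1⟩

theorem main (hEX : S_EX) (hGEN : S_GEN) (hEND : S_END) (hDEN : S_DEN) (hKIL : S_KIL)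
    (hCON : S_CON) (hn : 3 ≤ Fintype.card ι) (c : ℝ) (e : ι → ℝ) (he : ∀ i, e i ^ 2 = 1)
    (U : Set (ι → ℝ)) (hU : IsOpen U) (hUc : IsPreconnected U) (hne : U.Nonempty)
    (hUd : ∀ x ∈ U, 0 < rho c e x) (hG : ∀ s t, AnalyticOnNhd ℝ (fun x => gInv c e x s t) U) :
    ∃ F : killing (gInv c e) U hG → ℝ,
      IsPoly F ∧ (∃ K, F K ≠ 0) ∧ ∀ K, F K ≠ 0 →
        ∀ (W : Set (ι → ℝ)) (f : (ι → ℝ) → ℝ), IsOpen W → IsPreconnected W → W ⊆ U →
          ContDiffOn ℝ (⊤ : ℕ∞) f W → IsLaw K.1 f W → ∀ x ∈ W, ∀ y ∈ W, f x = f y := by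
  classical
  obtain ⟨d, b, hd, hp⟩ := hEX ι e hn he
  obtain ⟨P, hP0, hP⟩ := hGEN ι 6 (Kjet d (lin e b)) d (by norm_num) hd (fun s j => rfl) hp
  obtain ⟨r, hr, hr1⟩ := exists_scale hCON c e d b he P hP0
  have hk := hKIL ι c e d (fun i j k => r⁻¹ * b i j k) he
  generalize kK c e d (fun i j k => r⁻¹ * b i j k) = K₁ at hr1 hk
  obtain ⟨x₁, hx₁, hx₁'⟩ := hDEN ι r P {x | 0 < rho c e x} K₁ 0 (isOpen_dom c e)
    (isPreconnected_dom c e) hk.analytic (by simp [rho_zero]) hr1 U hU hne hUd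
  refine ⟨fun K => ev P r K.1 x₁, isPoly_eval _ U hU hG x₁ hx₁ r P,
    ⟨⟨_, restrict_mem hU hUd hG hk⟩, ?_⟩, fun K hK W f hW hWc hWU hf hl => ?_⟩
  · have := ev_congr P r (K := fun x => if x ∈ U then K₁ x else 0) (K' := K₁) hU
      (fun x hx => if_pos hx) x₁ hx₁
    exact fun h0 => hx₁' (this.symm.trans h0)
  · exact hEND ι 6 r P U K.1 x₁ (by norm_num) hr hP hU hUc K.2.1.analytic hx₁ hK W f hW hWc hWU hf
      hl

end Pool.Agent.N321.KT
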